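import Pool.Agent.W394.BQN.Stm2

/-!
# Base change of `C[x_0,...,x_n]/(x_0 ⋯ x_n - u)` to a localisation (part BQN2-SLC)
-/

set_option autoImplicit false

open Polynomial

noncomputable section

namespace Pool.Agent.W876.BQN

open BQ Pool.Agent.W394.BQN

section
variable (C C' : Type) [CommRing C] [CommRing C'] [Algebra C C'] (u : C) (n : ℕ)

theorem psi_aux : ∏ i, (fun i : Fin (n + 1) => Q.pr C' (algebraMap C C' u) n (MvPolynomial.X i)) i =
    ((Q.pr C' (algebraMap C C' u) n).comp (MvPolynomial.C.comp (algebraMap C C'))) u :=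
  Q.pr_prod C' (algebraMap C C' u) n

/-- the map of the semistable rings -/
def psi : Semi C u n →+* Semi C' (algebraMap C C' u) n :=
  Q.lft C u n ((Q.pr C' (algebraMap C C' u) n).comp (MvPolynomial.C.comp (algebraMap C C')))
    (fun i => Q.pr C' (algebraMap C C' u) n (MvPolynomial.X i)) (psi_aux C C' u n)

theorem psi_pr (F : MvPolynomial (Fin (n + 1)) C) : psi C C' u n (Q.pr C u n F) =
    Q.pr C' (algebraMap C C' u) n (MvPolynomial.map (algebraMap C C') F) := by
  have h : (psi C C' u n).comp (Q.pr C u n) =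
      (Q.pr C' (algebraMap C C' u) n).comp (MvPolynomial.map (algebraMap C C')) := by
    apply MvPolynomial.ringHom_ext
    · intro c
      simp only [RingHom.comp_apply, MvPolynomial.map_C]
      exact Q.lft_C C u n _ _ (psi_aux C C' u n) c
    · intro i
      simp only [RingHom.comp_apply, MvPolynomial.map_X]
      exact Q.lft_X C u n _ _ (psi_aux C C' u n) i
  exact RingHom.congr_fun h F

theorem pr_gen : Q.pr C u n ((∏ i, MvPolynomial.X i) - MvPolynomial.C u) = 0 := by
  rw [map_sub, map_prod, Q.pr_prod, sub_self]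

end

attribute [local instance] MvPolynomial.algebraMvPolynomial in
theorem t_SLC (h : S_GL) : S_SLC := by
  intro C C' _ _ _ M _ u n q hq hM
  have hloc : IsLocalization (M.map (MvPolynomial.C (R := C) (σ := Fin (n + 1))))
      (MvPolynomial (Fin (n + 1)) C') := MvPolynomial.isLocalization M C'
  have halg : ∀ F : MvPolynomial (Fin (n + 1)) C,
      algebraMap (MvPolynomial (Fin (n + 1)) C) (MvPolynomial (Fin (n + 1)) C') F =
        MvPolynomial.map (algebraMap C C') F := fun F => rfl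
  have clear : ∀ G : MvPolynomial (Fin (n + 1)) C', ∃ m ∈ M,
      ∃ G₀ : MvPolynomial (Fin (n + 1)) C,
        G * MvPolynomial.map (algebraMap C C') (MvPolynomial.C m) =
          MvPolynomial.map (algebraMap C C') G₀ := by
    intro G
    obtain ⟨⟨G₀, ⟨m', hm'⟩⟩, hG⟩ := IsLocalization.surj
      (M.map (MvPolynomial.C (R := C) (σ := Fin (n + 1)))) G
    obtain ⟨m, hm, rfl⟩ := Submonoid.mem_map.mp hm'
    exact ⟨m, hm, G₀, hG⟩
  have c1 : ∀ a : Semi C u n, psi C C' u n a = 0 →
      ∃ m ∈ M.map ((Q.pr C u n).comp MvPolynomial.C : C →+* Semi C u n), m * a = 0 := by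
    intro a ha
    obtain ⟨F, rfl⟩ : ∃ F, Q.pr C u n F = a := Ideal.Quotient.mk_surjective a
    rw [psi_pr] at ha
    have h1 : MvPolynomial.map (algebraMap C C') F ∈
        Ideal.span {(∏ i, MvPolynomial.X i) - MvPolynomial.C (algebraMap C C' u)} :=
      Ideal.Quotient.eq_zero_iff_mem.mp ha
    rw [Ideal.mem_span_singleton] at h1
    obtain ⟨G, hG⟩ := h1
    obtain ⟨m, hm, G₀, hG₀⟩ := clear G
    have h2 : algebraMap (MvPolynomial (Fin (n + 1)) C) (MvPolynomial (Fin (n + 1)) C')
          (F * MvPolynomial.C m) =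
        algebraMap (MvPolynomial (Fin (n + 1)) C) (MvPolynomial (Fin (n + 1)) C')
          (((∏ i, MvPolynomial.X i) - MvPolynomial.C u) * G₀) := by
      rw [halg, halg, map_mul, map_mul, hG, mul_assoc, hG₀]
      congr 1
      rw [map_sub, map_prod]
      simp
    obtain ⟨⟨c, hc⟩, h3⟩ := (IsLocalization.eq_iff_exists
      (M.map (MvPolynomial.C (R := C) (σ := Fin (n + 1)))) (MvPolynomial (Fin (n + 1)) C')).mp h2
    obtain ⟨m₁, hm₁, rfl⟩ := Submonoid.mem_map.mp hc
    refine ⟨Q.pr C u n (MvPolynomial.C (m₁ * m)), ?_, ?_⟩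
    · exact Submonoid.mem_map.mpr ⟨m₁ * m, M.mul_mem hm₁ hm, rfl⟩
    · have h4 : (MvPolynomial.C (m₁ * m) : MvPolynomial (Fin (n + 1)) C) * F =
          MvPolynomial.C m₁ * (F * MvPolynomial.C m) := by
        rw [map_mul]; ring
      have h3' : (MvPolynomial.C m₁ : MvPolynomial (Fin (n + 1)) C) * (F * MvPolynomial.C m) =
          MvPolynomial.C m₁ * (((∏ i, MvPolynomial.X i) - MvPolynomial.C u) * G₀) := h3
      rw [← map_mul, h4, h3', map_mul, map_mul, pr_gen, zero_mul, mul_zero]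
  have c2 : ∀ b : Semi C' (algebraMap C C' u) n,
      ∃ m ∈ M.map ((Q.pr C u n).comp MvPolynomial.C : C →+* Semi C u n), ∃ a,
        psi C C' u n m * b = psi C C' u n a := by
    intro b
    obtain ⟨G, rfl⟩ : ∃ G, Q.pr C' (algebraMap C C' u) n G = b := Ideal.Quotient.mk_surjective b
    obtain ⟨m, hm, G₀, hG₀⟩ := clear G
    refine ⟨Q.pr C u n (MvPolynomial.C m), Submonoid.mem_map.mpr ⟨m, hm, rfl⟩,
      Q.pr C u n G₀, ?_⟩
    rw [psi_pr, psi_pr, ← map_mul, mul_comm, hG₀]
  obtain ⟨q', hq', hqq, e⟩ := (h (Semi C u n) (Semi C' (algebraMap C C' u) n) (psi C C' u n)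
    (M.map ((Q.pr C u n).comp MvPolynomial.C : C →+* Semi C u n)) c1 c2).2 q (by
      intro m hm
      obtain ⟨c, hc, rfl⟩ := Submonoid.mem_map.mp hm
      exact hM c hc)
  refine ⟨q', hq', ?_, e⟩
  intro c
  rw [hqq, Ideal.mem_comap, psi_pr, MvPolynomial.map_C]

end Pool.Agent.W876.BQN
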